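import Pool.Agent.Run7.h794.EX.Def
import Pool.Agent.N625.DY.J

/-!
# The conjecture of Elliott and Halberstam on average over random residues whose blocks of digits can be exchanged

Absolute values over all the moduli `q ≤ N ^ (1 - ε)` and arbitrary heights inside; the residue is `c + κ v`, where `v` is a
random integer with `k` digits in base `b` and ANY distribution for which after every beginning of the word of the
digits two blocks of `L` digits can be exchanged (see `Exchangeable`). Examples: the uniform distribution on the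
integers with `k` digits whose sum of digits is a prescribed number between `δ k` and `(b - 1 - δ) k` (`L = 2`, the blocks
`01` and `10`); the words of an irreducible aperiodic subshift of finite type; Markov chains and Gibbs measures.

Method: if blocks of digits can be exchanged then the exponential sum is small at all the frequencies with many places
not close to rational numbers with a small denominator (starting file `Pool.Agent.N625.PT`); the passage from such
exponential sums to averages of primes in residue classes is from the starting files (`Pool.Agent.TH872.An.av_law`).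

From Mathlib: `ArithmeticFunction.vonMangoldt`: the function `Λ`; `Nat.totient`: Euler's function.
-/

set_option autoImplicit false

namespace Pool.Agent.Results.MP_a78e8f_nt.ExchangeableAverages

open Finset
open Pool.Agent.Run7.h794.EX (Exchangeable)

/-- `ψ(x; q, a) - x / φ(q)`, where `ψ(x; q, a)` is the sum of `Λ(n)` over the `n ≤ x` with `n ≡ a (mod q)`. -/
noncomputable def err (x q a : ℕ) : ℝ :=
  ∑ n ∈ (Icc 1 x).filter (fun n => n ≡ a [MOD q]), ArithmeticFunction.vonMangoldt n - (x : ℝ) / Nat.totient q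

/-- The expectation of `w(v) (ψ(x; q, a) - x / φ(q))`, `a = c + κ v`, for the distribution `p` of `v`, over the `v` for which
the residue `a` is positive and coprime to `q`. -/
noncomputable def mean (b k : ℕ) (p : ℕ → ℝ) (κ c : ℤ) (w : ℕ → ℝ) (x q : ℕ) : ℝ :=
  ∑ v ∈ (range (b ^ k)).filter (fun v : ℕ => 0 < c + κ * (v : ℤ) ∧ (c + κ * (v : ℤ)).toNat.Coprime q),
    p v * (w v * err x q (c + κ * (v : ℤ)).toNat)

/-- Let `b ≥ 2`, `L ≥ 1`, `0 < η ≤ 1`, `t`, `κ ≠ 0`, `B`, `T`, `U` and `ε > 0` be fixed, let `k` be large and `N = b ^ k`. Let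
`p` be an exchangeable distribution (with the parameters `L`, `η`, `t`) on the integers `v < N`, let `c` be an arbitrary integer
with `|c| ≤ B N`, let `w(v)` be arbitrary real coefficients with `|w(v)| ≤ k ^ T`, and for every modulus `q` let `x(q) ≤ B N`
be an arbitrary height. Then the sum over ALL moduli `q ≤ N ^ (1 - ε)` of the ABSOLUTE VALUE of the expectation of
`w(v) (ψ(x(q); q, a_v) - x(q) / φ(q))`, over the `v` for which the residue `a_v = c + κ v` is positive and coprime to `q`,
is at most `N / k ^ U`. -/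
theorem result (b L : ℕ) (hb : 2 ≤ b) (hL : 1 ≤ L) (η : ℝ) (hη0 : 0 < η) (hη1 : η ≤ 1) (t : ℕ) (κ : ℤ) (hκ : κ ≠ 0)
    (B T U : ℕ) (ε : ℝ) (hε : 0 < ε) :
    ∃ k₀ : ℕ, ∀ k : ℕ, k₀ ≤ k → ∀ p : ℕ → ℝ, Exchangeable b L η t k p → ∀ c : ℤ, |c| ≤ B * (b : ℤ) ^ k →
      ∀ w : ℕ → ℝ, (∀ v, |w v| ≤ (k : ℝ) ^ T) → ∀ x : ℕ → ℕ, (∀ q, x q ≤ B * b ^ k) →
      ∑ q ∈ Icc 1 ⌊((b ^ k : ℕ) : ℝ) ^ (1 - ε)⌋₊, |mean b k p κ c w (x q) q| ≤ ((b ^ k : ℕ) : ℝ) / (k : ℝ) ^ U := by
  obtain ⟨k₀, h0⟩ := Pool.Agent.N625.DY.cls_avg (Pool.Agent.Run7.h794.EX.cls b L hb hL η hη0 hη1 t κ hκ).toCls B T U ε hε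
  exact ⟨k₀, fun k hk p hp c hc w hw x hx => h0 k hk p (Pool.Agent.Run7.h794.EX.flex_of hp) c hc w hw x hx⟩

end Pool.Agent.Results.MP_a78e8f_nt.ExchangeableAverages
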